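import Pool.Agent.T9h59.RC.Basic

set_option autoImplicit false

/-! Exponential sums with coefficients supported on a set `A` of residue classes modulo `m`: the sum
is controlled by its values on any arc of length `|A| / m`. -/

namespace Pool.Agent.T9h59.RC

open Finset Polynomial Filter Topology
open Pool.Agent.Y853.EM (S S_zero S_add_nat muc lic muc_norm)
open Pool.Agent.N375.LM

/-- the number `e(n/P)` -/
noncomputable def en (P n : ℕ) : ℂ := Complex.exp (2 * Real.pi * Complex.I * (n / P))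

theorem exp_shift' (n i P : ℕ) (y : ℝ) :
    Complex.exp (2 * Real.pi * Complex.I * n * ((y + i / P : ℝ) : ℂ)) =
      Complex.exp (2 * Real.pi * Complex.I * n * y) * en P n ^ i :=
  exp_shift n i P y

/-- the coefficients vanish outside the zeros of `g` -/
def Sup (P : ℕ) (g : ℂ[X]) (c : ℕ → ℂ) : Prop := ∀ n : ℕ, c n ≠ 0 → g.IsRoot (en P n)

theorem rec_gen (P : ℕ) (g : ℂ[X]) (c : ℕ → ℂ) (hc : Sup P g c) (R : ℕ)
    (y : ℝ) : ∑ i ∈ range (g.natDegree + 1), g.coeff i * S c R (y + i / P) = 0 := by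
  have h1 : ∑ i ∈ range (g.natDegree + 1), g.coeff i * S c R (y + i / P) =
      ∑ n ∈ Icc 1 R, c n * Complex.exp (2 * Real.pi * Complex.I * n * y) *
        ∑ i ∈ range (g.natDegree + 1), g.coeff i * en P n ^ i := by
    unfold S
    simp only [Finset.mul_sum]
    rw [Finset.sum_comm]
    refine Finset.sum_congr rfl fun n _ => Finset.sum_congr rfl fun i _ => ?_
    rw [exp_shift']
    ring
  rw [h1]
  refine Finset.sum_eq_zero fun n _ => ?_
  by_cases hn : c n = 0
  · rw [hn]
    ring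
  · have h3 := eval_eq_sum_range (p := g) (en P n)
    rw [← h3, (hc n hn : g.eval _ = 0), mul_zero]

/-- the constant of one step -/
noncomputable def Lm (g : ℂ[X]) : ℝ := 1 + ∑ i ∈ range g.natDegree, ‖g.coeff i‖

theorem one_le_Lm (g : ℂ[X]) : 1 ≤ Lm g := by
  unfold Lm
  have : 0 ≤ ∑ i ∈ range g.natDegree, ‖g.coeff i‖ := Finset.sum_nonneg fun i _ => norm_nonneg _
  linarith

theorem step_gen (P : ℕ) (g : ℂ[X]) (hg : g.Monic) (c : ℕ → ℂ) (hc : Sup P g c) (R : ℕ)
    (y B : ℝ) (hB : 0 ≤ B) (h : ∀ i < g.natDegree, ‖S c R (y + i / P)‖ ≤ B) :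
    ‖S c R (y + g.natDegree / P)‖ ≤ Lm g * B := by
  have h1 := rec_gen P g c hc R y
  rw [Finset.sum_range_succ, hg.coeff_natDegree, one_mul] at h1
  have h4 : S c R (y + g.natDegree / P) =
      -∑ i ∈ range g.natDegree, g.coeff i * S c R (y + i / P) := by
    rw [eq_neg_iff_add_eq_zero, add_comm]
    exact h1
  rw [h4, norm_neg]
  refine (norm_sum_le _ _).trans ?_
  have h5 : ∑ i ∈ range g.natDegree, ‖g.coeff i * S c R (y + i / P)‖ ≤
      ∑ i ∈ range g.natDegree, ‖g.coeff i‖ * B := by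
    refine Finset.sum_le_sum fun i hi => ?_
    rw [norm_mul]
    exact mul_le_mul_of_nonneg_left (h i (Finset.mem_range.1 hi)) (norm_nonneg _)
  refine h5.trans ?_
  rw [← Finset.sum_mul]
  refine mul_le_mul_of_nonneg_right ?_ hB
  unfold Lm
  linarith

theorem iter_gen (P : ℕ) (g : ℂ[X]) (hg : g.Monic) (c : ℕ → ℂ) (hc : Sup P g c) (R : ℕ)
    (y B : ℝ) (hB : 0 ≤ B) (h : ∀ i < g.natDegree, ‖S c R (y + i / P)‖ ≤ B) (k : ℕ) :
    ‖S c R (y + k / P)‖ ≤ Lm g ^ k * B := by
  have hL := one_le_Lm g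
  induction k using Nat.strong_induction_on with
  | _ k ih =>
    by_cases hk : k < g.natDegree
    · refine (h k hk).trans ?_
      have : 1 ≤ Lm g ^ k := one_le_pow₀ hL
      nlinarith
    · obtain ⟨j, rfl⟩ := Nat.exists_eq_add_of_le (not_lt.1 hk)
      rcases Nat.eq_zero_or_pos g.natDegree with h0 | hpos
      · have hg1 : g = 1 := Polynomial.eq_one_of_monic_natDegree_zero hg h0
        have hc0 : ∀ n, c n = 0 := by
          intro n
          by_contra hn
          have h2 := hc n hn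
          rw [hg1, IsRoot.def, eval_one] at h2
          exact one_ne_zero h2
        have h3 : ∀ x, S c R x = 0 := by
          intro x
          unfold S
          refine Finset.sum_eq_zero fun n _ => ?_
          rw [hc0, zero_mul]
        rw [h3, norm_zero]
        exact mul_nonneg (pow_nonneg (by linarith) _) hB
      have h1 := step_gen P g hg c hc R (y + j / P) (Lm g ^ (g.natDegree + j - 1) * B)
        (mul_nonneg (pow_nonneg (by linarith) _) hB) (by
          intro i hi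
          have h2 := ih (j + i) (by omega)
          have e : y + j / P + i / P = y + ((j + i : ℕ) : ℝ) / P := by
            push_cast
            ring
          rw [e]
          refine h2.trans ?_
          exact mul_le_mul_of_nonneg_right (pow_le_pow_right₀ hL (by omega)) hB)
      have e : y + ((g.natDegree + j : ℕ) : ℝ) / P = y + j / P + g.natDegree / P := by
        push_cast
        ring
      rw [e]
      refine h1.trans (le_of_eq ?_)
      rw [← mul_assoc, ← pow_succ']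
      congr 2
      omega

/-- **Localisation**: every arc of length at least `deg g / P` controls the sum. -/
theorem arc_gen (P : ℕ) (hP : 0 < P) (g : ℂ[X]) (hg : g.Monic) : ∃ K : ℝ, 1 ≤ K ∧ ∀ c : ℕ → ℂ,
    Sup P g c → ∀ α β : ℝ, (g.natDegree : ℝ) ≤ P * (β - α) → ∀ (R : ℕ) (B : ℝ), 0 ≤ B →
      (∀ y ∈ Set.Icc α β, ‖S c R y‖ ≤ B) → ∀ x : ℝ, ‖S c R x‖ ≤ K * B := by
  refine ⟨Lm g ^ P, one_le_pow₀ (one_le_Lm g), ?_⟩
  intro c hc α β hαβ R B hB h x
  have hP0 : (0 : ℝ) < P := by exact_mod_cast hP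
  obtain ⟨j0, hj0⟩ : ∃ j0 : ℤ, j0 = ⌈(P : ℝ) * (α - x)⌉ := ⟨_, rfl⟩
  have hj1 : (P : ℝ) * (α - x) ≤ j0 := by rw [hj0]; exact Int.le_ceil _
  have hj2 : (j0 : ℝ) < P * (α - x) + 1 := by rw [hj0]; exact Int.ceil_lt_add_one _
  obtain ⟨y, hy⟩ : ∃ y : ℝ, y = x + j0 / P := ⟨_, rfl⟩
  have hy1 : α ≤ y := by
    rw [hy, ← sub_le_iff_le_add', le_div_iff₀ hP0]
    linarith
  have hy2 : y < α + 1 / P := by
    rw [hy, ← lt_sub_iff_add_lt', div_lt_iff₀ hP0]
    have : (α + 1 / P - x) * P = P * (α - x) + 1 := by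
      field_simp
      ring
    linarith
  have hpt : ∀ i < g.natDegree, ‖S c R (y + i / P)‖ ≤ B := by
    intro i hi
    refine h _ ⟨?_, ?_⟩
    · have : (0 : ℝ) ≤ i / P := by positivity
      linarith
    · have h1 : ((i : ℝ) + 1) ≤ g.natDegree := by exact_mod_cast hi
      have h2 : ((i : ℝ) + 1) / P ≤ β - α := by
        rw [div_le_iff₀ hP0]
        linarith
      have h3 : ((i : ℝ) + 1) / P = i / P + 1 / P := by ring
      linarith
  obtain ⟨k, hk⟩ : ∃ k : ℕ, (k : ℤ) = (-j0) % P := by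
    refine ⟨((-j0) % P).toNat, ?_⟩
    rw [Int.toNat_of_nonneg]
    exact Int.emod_nonneg _ (by exact_mod_cast hP.ne')
  have hkP : k ≤ P := by
    have h1 := Int.emod_lt_of_pos (-j0) (show (0 : ℤ) < P by exact_mod_cast hP)
    rw [← hk] at h1
    exact_mod_cast h1.le
  have h1 := iter_gen P g hg c hc R y B hB hpt k
  have h2 : x = y + k / P + (((-j0) / P : ℤ) : ℝ) := by
    have h3 := Int.emod_add_mul_ediv (-j0) P
    rw [← hk] at h3
    have h4 : (k : ℝ) + P * (((-j0) / P : ℤ) : ℝ) = -j0 := by exact_mod_cast h3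
    have h5 : (k : ℝ) = -j0 - P * (((-j0) / P : ℤ) : ℝ) := by linarith
    rw [hy, h5]
    field_simp
    ring
  rw [h2, S_add_int]
  refine h1.trans ?_
  exact mul_le_mul_of_nonneg_right (pow_le_pow_right₀ (one_le_Lm g) hkP) hB

/-- the polynomial with the zeros `e(a/P)`, `a` in `A` -/
noncomputable def gA (P : ℕ) (A : Finset (ZMod P)) : ℂ[X] := ∏ a ∈ A, (X - C (en P a.val))

theorem gA_monic (P : ℕ) (A : Finset (ZMod P)) : (gA P A).Monic :=
  monic_prod_of_monic _ _ fun a _ => monic_X_sub_C _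

theorem gA_deg (P : ℕ) (A : Finset (ZMod P)) : (gA P A).natDegree = A.card := by
  unfold gA
  rw [natDegree_prod_of_monic _ _ fun a _ => monic_X_sub_C _]
  simp

theorem en_val (P : ℕ) (hP : 0 < P) (n : ℕ) : en P (n : ZMod P).val = en P n := by
  have hP0 : (P : ℂ) ≠ 0 := by exact_mod_cast hP.ne'
  rw [ZMod.val_natCast]
  unfold en
  have h : (n : ℂ) = ((n % P : ℕ) : ℂ) + P * ((n / P : ℕ) : ℂ) := by
    exact_mod_cast (Nat.mod_add_div n P).symm
  conv_rhs => rw [h]
  have h2 : 2 * Real.pi * Complex.I * ((((n % P : ℕ) : ℂ) + P * ((n / P : ℕ) : ℂ)) / P) =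
      2 * Real.pi * Complex.I * (((n % P : ℕ) : ℂ) / P) +
        ((n / P : ℕ) : ℂ) * (2 * Real.pi * Complex.I) := by
    field_simp
  rw [h2, Complex.exp_add, Complex.exp_nat_mul_two_pi_mul_I, mul_one]

theorem gA_sup (P : ℕ) (hP : 0 < P) (A : Finset (ZMod P)) (c : ℕ → ℂ)
    (hc : ∀ n : ℕ, (n : ZMod P) ∉ A → c n = 0) : Sup P (gA P A) c := by
  intro n hn
  have h : (n : ZMod P) ∈ A := by
    by_contra h
    exact hn (hc n h)
  unfold gA
  rw [IsRoot.def, eval_prod]
  apply Finset.prod_eq_zero h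
  rw [eval_sub, eval_X, eval_C, en_val P hP, sub_self]

open Classical in
/-- power bounds on an arc of length at least `|A| / m` are power bounds on the circle -/
theorem AB_iff' {m : ℕ} [NeZero m] (w : ZMod m → ℂ) (f : ℕ → ℂ) (b : ℝ)
    {α β : ℝ} (hαβ : (({a : ZMod m | w a ≠ 0} : Finset (ZMod m)).card : ℝ) ≤ m * (β - α)) :
    AB (fun n => w (n : ZMod m) * f n) α β b ↔ UB (fun n => w (n : ZMod m) * f n) b := by
  have hm : 0 < m := Nat.pos_of_ne_zero (NeZero.ne m)
  constructor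
  · rintro ⟨C, hC⟩
    obtain ⟨K, hK1, hK⟩ := arc_gen m hm _ (gA_monic m ({a : ZMod m | w a ≠ 0} : Finset (ZMod m)))
    refine ⟨K * |C|, fun R x => ?_⟩
    have h1 := hK (fun n => w (n : ZMod m) * f n) (gA_sup m hm _ _ (fun n hn => by
      show w (n : ZMod m) * f n = 0
      simp only [Finset.mem_filter, Finset.mem_univ, true_and, not_not] at hn
      rw [hn, zero_mul])) α β (by rw [gA_deg]; exact hαβ) R
      (|C| * (R : ℝ) ^ b) (mul_nonneg (abs_nonneg _) (Real.rpow_nonneg (Nat.cast_nonneg _) _))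
      (fun y hy => (hC R y hy).trans (mul_le_mul_of_nonneg_right (le_abs_self _)
        (Real.rpow_nonneg (Nat.cast_nonneg _) _))) x
    rw [mul_assoc]
    exact h1
  · rintro ⟨C, hC⟩
    exact ⟨C, fun R x _ => hC R x⟩

/-- frequently large on one side, or a one-sided bound for all `R` -/
theorem freq_re {c : ℕ → ℂ} {A : ℝ} (hc : ∀ n, ‖c n‖ ≤ A) {z : ℂ} (h : ¬ OB z c (1 / 2))
    (C : ℝ) : ∃ᶠ R : ℕ in atTop, ∃ x : ℝ, C * Real.sqrt R < (z * S c R x).re := by
  intro h1
  apply h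
  have hA : 0 ≤ A := (norm_nonneg _).trans (hc 0)
  obtain ⟨R₀, hR₀⟩ := eventually_atTop.1 h1
  refine ⟨|C| + ‖z‖ * (A * R₀), fun R x => ?_⟩
  rw [← Real.sqrt_eq_rpow]
  have hs : 0 ≤ Real.sqrt R := Real.sqrt_nonneg _
  have hzA : 0 ≤ ‖z‖ * (A * R₀) := by positivity
  by_cases hR : R₀ ≤ R
  · have h2 := hR₀ R hR
    have h3 : (z * S c R x).re ≤ C * Real.sqrt R := by
      by_contra h4
      exact h2 ⟨x, not_le.1 h4⟩
    have h4 : C ≤ |C| + ‖z‖ * (A * R₀) := by
      have := le_abs_self C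
      linarith
    exact h3.trans (mul_le_mul_of_nonneg_right h4 hs)
  · rcases Nat.eq_zero_or_pos R with rfl | hR1
    · rw [S_zero, mul_zero, Complex.zero_re]
      positivity
    · have h2 := norm_S_le' hc R x
      have h3 : (1 : ℝ) ≤ Real.sqrt R := by
        rw [Real.one_le_sqrt]
        exact_mod_cast hR1
      have h4 : (R : ℝ) ≤ R₀ := by exact_mod_cast (not_le.1 hR).le
      have h5 : A * R ≤ A * R₀ := mul_le_mul_of_nonneg_left h4 hA
      have h6 : (z * S c R x).re ≤ ‖z‖ * (A * R₀) := by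
        refine (Complex.re_le_norm _).trans ?_
        rw [norm_mul]
        exact mul_le_mul_of_nonneg_left (h2.trans h5) (norm_nonneg z)
      have h7 : ‖z‖ * (A * R₀) ≤ (|C| + ‖z‖ * (A * R₀)) * 1 := by
        have := abs_nonneg C
        linarith
      refine h6.trans (h7.trans ?_)
      exact mul_le_mul_of_nonneg_left h3 (by positivity)

end Pool.Agent.T9h59.RC
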