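import Pool.Agent.N375.LM.Gen

set_option autoImplicit false

/-! The Möbius exponential sum restricted to one residue class. -/

namespace Pool.Agent.T9h59.RC

open Finset
open Pool.Agent.Y853.EM (S S_zero S_add_nat muc lic)
open Pool.Agent.N375.LM

theorem S_add' (c c' : ℕ → ℂ) (R : ℕ) (x : ℝ) :
    S (fun n => c n + c' n) R x = S c R x + S c' R x := by
  unfold S
  rw [← Finset.sum_add_distrib]
  exact Finset.sum_congr rfl fun n _ => by ring

theorem S_smul' (z : ℂ) (c : ℕ → ℂ) (R : ℕ) (x : ℝ) :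
    S (fun n => z * c n) R x = z * S c R x := by
  unfold S
  rw [Finset.mul_sum]
  exact Finset.sum_congr rfl fun n _ => by ring

theorem UB_add {c c' : ℕ → ℂ} {b : ℝ} (h : UB c b) (h' : UB c' b) :
    UB (fun n => c n + c' n) b := by
  obtain ⟨C, hC⟩ := h
  obtain ⟨C', hC'⟩ := h'
  refine ⟨C + C', fun R x => ?_⟩
  rw [S_add', add_mul]
  exact (norm_add_le _ _).trans (add_le_add (hC R x) (hC' R x))

theorem UB_smul {c : ℕ → ℂ} {b : ℝ} (z : ℂ) (h : UB c b) : UB (fun n => z * c n) b := by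
  obtain ⟨C, hC⟩ := h
  refine ⟨‖z‖ * C, fun R x => ?_⟩
  rw [S_smul', norm_mul, mul_assoc]
  exact mul_le_mul_of_nonneg_left (hC R x) (norm_nonneg z)

theorem UB_sum {ι : Type} (s : Finset ι) (c : ι → ℕ → ℂ) {b : ℝ} (h : ∀ i ∈ s, UB (c i) b) :
    UB (fun n => ∑ i ∈ s, c i n) b := by
  classical
  induction s using Finset.induction_on with
  | empty =>
    refine ⟨0, fun R x => ?_⟩
    have h0 : S (fun n => ∑ i ∈ (∅ : Finset ι), c i n) R x = 0 := by
      unfold S
      exact Finset.sum_eq_zero fun n _ => by simp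
    rw [h0]
    simp
  | insert a s ha ih =>
    have h1 := UB_add (h a (Finset.mem_insert_self _ _))
      (ih fun i hi => h i (Finset.mem_insert_of_mem hi))
    refine (congrArg (fun c => UB c b) (funext fun n => ?_)).mp h1
    rw [Finset.sum_insert ha]

theorem UB_congr {c c' : ℕ → ℂ} {b : ℝ} (h : UB c b) (hc : ∀ n, c' n = c n) : UB c' b := by
  have : c' = c := funext hc
  rw [this]; exact h

/-- periodic factors -/
theorem UB_per {q : ℕ} (hq : 0 < q) (w : ℕ → ℂ) (hw : ∀ n, w (n % q) = w n) {c : ℕ → ℂ} {b : ℝ}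
    (h : UB c b) : UB (fun n => w n * c n) b := by
  have : NeZero q := ⟨hq.ne'⟩
  refine UB_congr (S_weight (P := q) (fun z => w z.val) c h) fun n => ?_
  rw [ZMod.val_natCast, hw]

/-- dilations -/
theorem UB_dil {q : ℕ} (hq : 0 < q) {c : ℕ → ℂ} {b : ℝ} (h : UB c b) :
    UB (fun n => c (q * n)) b := by
  classical
  have h1 : UB (fun n => if q ∣ n then 0 else c n) b := by
    refine UB_congr (UB_per hq (fun n => if q ∣ n then 0 else 1) (fun n => ?_) h) fun n => ?_
    · simp only [Nat.dvd_mod_iff (dvd_refl q)]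
    · split_ifs <;> simp
  obtain ⟨C, hC⟩ := h
  obtain ⟨C', hC'⟩ := h1
  have hq0 : (0 : ℝ) < q := by exact_mod_cast hq
  refine ⟨(C + C') * (q : ℝ) ^ b, fun R x => ?_⟩
  have h2 := S_splitp q hq c (q * R) (x / q)
  rw [Nat.mul_div_cancel_left R hq, mul_div_cancel₀ x hq0.ne'] at h2
  have h3 : S (fun m => c (q * m)) R x =
      S c (q * R) (x / q) - S (fun n => if q ∣ n then 0 else c n) (q * R) (x / q) := by
    rw [h2]; ring
  rw [h3]
  have h4 : ((q * R : ℕ) : ℝ) ^ b = (q : ℝ) ^ b * (R : ℝ) ^ b := by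
    push_cast
    rw [Real.mul_rpow hq0.le (Nat.cast_nonneg R)]
  have h5 := hC (q * R) (x / q)
  have h6 := hC' (q * R) (x / q)
  rw [h4] at h5 h6
  calc _ ≤ _ := norm_sub_le _ _
    _ ≤ C * ((q : ℝ) ^ b * (R : ℝ) ^ b) + C' * ((q : ℝ) ^ b * (R : ℝ) ^ b) := add_le_add h5 h6
    _ = _ := by ring

theorem UB_dil' {q : ℕ} (hq : 0 < q) {c : ℕ → ℂ} {b : ℝ} (hb : 0 < b)
    (h : UB (fun n => c (q * n)) b) : UB (fun n => if q ∣ n then c n else 0) b := by
  classical
  obtain ⟨C, hC0, hC⟩ := UB_nonneg h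
  refine ⟨C, fun R x => ?_⟩
  have h2 := S_splitp q hq (fun n => if q ∣ n then c n else 0) R x
  have h3 : S (fun n => if q ∣ n then 0 else (if q ∣ n then c n else 0)) R x = 0 := by
    unfold S
    refine Finset.sum_eq_zero fun n _ => ?_
    by_cases h : q ∣ n <;> simp [h]
  have h4 : (fun m => (fun n => if q ∣ n then c n else 0) (q * m)) = fun m => c (q * m) := by
    funext m
    simp
  rw [h3, zero_add, h4] at h2
  rw [h2]
  refine (hC _ _).trans (mul_le_mul_of_nonneg_left ?_ hC0)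
  exact Real.rpow_le_rpow (Nat.cast_nonneg _) (by exact_mod_cast Nat.div_le_self R q) hb.le

/-! ### residue classes -/

open Classical in
/-- the indicator function of the residue class `a` modulo `m` -/
noncomputable def cls (m : ℕ) (a : ZMod m) (n : ℕ) : ℂ := if (n : ZMod m) = a then 1 else 0

theorem cls_per {m : ℕ} (a : ZMod m) (n : ℕ) : cls m a (n % m) = cls m a n := by
  unfold cls
  rw [ZMod.natCast_mod]

theorem UB_cls {m : ℕ} (hm : 0 < m) (a : ZMod m) {c : ℕ → ℂ} {b : ℝ} (h : UB c b) :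
    UB (fun n => cls m a n * c n) b :=
  UB_per hm (cls m a) (cls_per a) h

theorem UB_dvd {q : ℕ} (hq : 0 < q) {c : ℕ → ℂ} {b : ℝ} (h : UB c b) :
    UB (fun n => if q ∣ n then c n else 0) b := by
  classical
  refine UB_congr (UB_per hq (fun n => if q ∣ n then 1 else 0) (fun n => ?_) h) fun n => ?_
  · simp only [Nat.dvd_mod_iff (dvd_refl q)]
  · split_ifs <;> simp

theorem UB_ndvd {q : ℕ} (hq : 0 < q) {c : ℕ → ℂ} {b : ℝ} (h : UB c b) :
    UB (fun n => if q ∣ n then 0 else c n) b := by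
  classical
  refine UB_congr (UB_per hq (fun n => if q ∣ n then 0 else 1) (fun n => ?_) h) fun n => ?_
  · simp only [Nat.dvd_mod_iff (dvd_refl q)]
  · split_ifs <;> simp

theorem muc_coprime {q n : ℕ} (h : q.Coprime n) : muc (q * n) = muc q * muc n := by
  unfold muc
  rw [ArithmeticFunction.isMultiplicative_moebius.map_mul_of_coprime h]
  push_cast
  ring

theorem muc_ncoprime {q n : ℕ} (h : ¬ q.Coprime n) : muc (q * n) = 0 := by
  unfold muc
  rw [ArithmeticFunction.moebius_eq_zero_of_not_squarefree, Int.cast_zero]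
  intro h1
  exact h (Nat.coprime_of_squarefree_mul h1)

theorem lic_mul (q n : ℕ) : lic (q * n) = lic q * lic n := by
  unfold lic
  rw [ArithmeticFunction.liouville_apply_mul]
  push_cast
  ring

theorem cls_mul {m : ℕ} {u a : ZMod m} (hu : IsUnit u) {q : ℕ} (hq : (q : ZMod m) = u) (n : ℕ) :
    cls m (u * a) (q * n) = cls m a n := by
  unfold cls
  congr 1
  push_cast
  rw [hq]
  exact propext ⟨fun h => hu.mul_left_cancel h, fun h => by rw [h]⟩

/-- the numbers of the class `a` prime to `q`, from those of the class `u a` -/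
theorem step_ndvd {m : ℕ} {u a : ZMod m} (hu : IsUnit u) {q : ℕ} (hqp : q.Prime)
    (hq : (q : ZMod m) = u) {b : ℝ} (h : UB (fun n => cls m (u * a) n * muc n) b) :
    UB (fun n => if q ∣ n then 0 else cls m a n * muc n) b := by
  refine UB_congr (UB_smul (-1) (UB_dil hqp.pos h)) fun n => ?_
  rw [cls_mul hu hq]
  by_cases h1 : q ∣ n
  · rw [if_pos h1, muc_ncoprime (fun h2 => (Nat.Prime.coprime_iff_not_dvd hqp).1 h2 h1)]
    ring
  · rw [if_neg h1, muc_coprime ((Nat.Prime.coprime_iff_not_dvd hqp).2 h1)]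
    have h2 : muc q = -1 := by
      unfold muc
      rw [ArithmeticFunction.moebius_apply_prime hqp]
      norm_num
    rw [h2]
    ring

/-- removing the condition `∏ T ∣ n` -/
theorem step_prod {m : ℕ} {u a : ZMod m} (hu : IsUnit u) {b : ℝ}
    (h : UB (fun n => cls m (u * a) n * muc n) b) (T : Finset ℕ) :
    (∀ q ∈ T, q.Prime ∧ (q : ZMod m) = u) →
    UB (fun n => if (∏ q ∈ T, q) ∣ n then cls m a n * muc n else 0) b →
    UB (fun n => cls m a n * muc n) b := by
  classical
  induction T using Finset.induction_on with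
  | empty =>
    intro _ h1
    refine UB_congr h1 fun n => ?_
    rw [Finset.prod_empty, if_pos (one_dvd n)]
  | insert q T hq ih =>
    intro hT h1
    have hqp := (hT q (Finset.mem_insert_self _ _)).1
    have hqu := (hT q (Finset.mem_insert_self _ _)).2
    have hT' : ∀ q ∈ T, q.Prime ∧ (q : ZMod m) = u := fun q hq => hT q (Finset.mem_insert_of_mem hq)
    have hpos : 0 < ∏ q ∈ T, q := Finset.prod_pos fun q hq => (hT' q hq).1.pos
    apply ih hT'
    have h2 := UB_dvd hpos (step_ndvd hu hqp hqu h)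
    refine UB_congr (UB_add h1 h2) fun n => ?_
    have hcop : q.Coprime (∏ q ∈ T, q) := by
      apply Nat.Coprime.prod_right
      intro i hi
      rw [Nat.coprime_primes hqp (hT' i hi).1]
      rintro rfl
      exact hq hi
    rw [Finset.prod_insert hq]
    by_cases h3 : (∏ q ∈ T, q) ∣ n
    · rw [if_pos h3, if_pos h3]
      by_cases h4 : q ∣ n
      · rw [if_pos h4, if_pos (hcop.mul_dvd_of_dvd_of_dvd h4 h3), add_zero]
      · rw [if_neg h4, if_neg (fun h5 => h4 ((Dvd.intro _ rfl).trans h5)), zero_add]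
    · rw [if_neg h3, if_neg h3, if_neg (fun h5 => h3 ((Dvd.intro_left _ rfl).trans h5)), add_zero]

theorem prod_cast {m : ℕ} {u : ZMod m} (T : Finset ℕ) (hT : ∀ q ∈ T, q.Prime ∧ (q : ZMod m) = u) :
    ((∏ q ∈ T, q : ℕ) : ZMod m) = u ^ T.card := by
  push_cast
  rw [Finset.prod_congr rfl fun q hq => (hT q hq).2, Finset.prod_const]

/-- from the class `u a` to the class `a` -/
theorem class_step {m : ℕ} (hm : 0 < m) {u a : ZMod m} (hu : IsUnit u) {b : ℝ} (hb : 0 < b)
    (h : UB (fun n => cls m (u * a) n * muc n) b) : UB (fun n => cls m a n * muc n) b := by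
  classical
  have : NeZero m := ⟨hm.ne'⟩
  -- `u ^ (k + 1) = 1`
  obtain ⟨k, hk⟩ : ∃ k : ℕ, u ^ (k + 1) = 1 := by
    obtain ⟨v, rfl⟩ := hu
    refine ⟨Fintype.card (ZMod m)ˣ - 1, ?_⟩
    have h1 : 0 < Fintype.card (ZMod m)ˣ := Fintype.card_pos
    rw [Nat.sub_add_cancel h1, ← Units.val_pow_eq_pow_val, pow_card_eq_one, Units.val_one]
  have hinf := Nat.infinite_setOfPred_prime_and_eq_mod hu
  obtain ⟨T, hT, hTk⟩ := hinf.exists_subset_card_eq k
  have hT' : ∀ q ∈ T, q.Prime ∧ (q : ZMod m) = u := fun q hq => hT hq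
  apply step_prod hu h T hT'
  set Q : ℕ := ∏ q ∈ T, q with hQ
  have hQ0 : 0 < Q := Finset.prod_pos fun q hq => (hT' q hq).1.pos
  apply UB_dil' hQ0 hb
  -- `cls a (Q n) μ(Q n) = μ(Q) [(n, Q) = 1] cls (u a) n μ(n)`
  have h1 : UB (fun n => (if Q.Coprime n then 1 else 0) * (cls m (u * a) n * muc n)) b := by
    refine UB_per hQ0 (fun n => if Q.Coprime n then 1 else 0) (fun n => ?_) h
    congr 1
    rw [Nat.coprime_iff_gcd_eq_one, Nat.coprime_iff_gcd_eq_one, Nat.gcd_comm Q (n % Q),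
      ← Nat.gcd_rec, ]
  refine UB_congr (UB_smul (muc Q) h1) fun n => ?_
  have hQu : (Q : ZMod m) = u ^ k := by rw [hQ, prod_cast T hT', hTk]
  have h2 : cls m a (Q * n) = cls m (u * a) n := by
    have h3 : a = u ^ k * (u * a) := by
      rw [← mul_assoc, ← pow_succ, hk, one_mul]
    conv_lhs => rw [h3]
    exact cls_mul (hu.pow k) hQu n
  rw [h2]
  by_cases h4 : Q.Coprime n
  · rw [if_pos h4, muc_coprime h4]
    ring
  · rw [if_neg h4, muc_ncoprime h4]
    ring

/-- all reduced classes are equivalent -/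
theorem class_class {m : ℕ} (hm : 0 < m) {a a' : ZMod m} (ha : IsUnit a) (ha' : IsUnit a')
    {b : ℝ} (hb : 0 < b) (h : UB (fun n => cls m a n * muc n) b) :
    UB (fun n => cls m a' n * muc n) b := by
  obtain ⟨v, rfl⟩ := ha
  obtain ⟨v', rfl⟩ := ha'
  apply class_step hm (u := ((v * v'⁻¹ : (ZMod m)ˣ) : ZMod m)) (Units.isUnit _) hb
  rw [← Units.val_mul, inv_mul_cancel_right]
  exact h

theorem cop_eq {m : ℕ} [NeZero m] (c : ℕ → ℂ) (n : ℕ) :
    cop m c n = ∑ a : (ZMod m)ˣ, cls m (a : ZMod m) n * c n := by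
  classical
  unfold cop
  by_cases h : n.Coprime m
  · rw [if_pos h, Finset.sum_eq_single (ZMod.unitOfCoprime n h)]
    · unfold cls
      rw [ZMod.coe_unitOfCoprime, if_pos rfl, one_mul]
    · intro a _ ha
      unfold cls
      rw [if_neg, zero_mul]
      intro h1
      apply ha
      apply Units.ext
      rw [ZMod.coe_unitOfCoprime, h1]
    · intro h1
      exact absurd (Finset.mem_univ _) h1
  · rw [if_neg h]
    symm
    refine Finset.sum_eq_zero fun a _ => ?_
    unfold cls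
    rw [if_neg, zero_mul]
    intro h1
    apply h
    rw [← ZMod.isUnit_iff_coprime, h1]
    exact a.isUnit

theorem UB_unit {m : ℕ} (hm : 0 < m) {a : ZMod m} (ha : IsUnit a) {b : ℝ} (hb : 0 < b)
    (h : UB (fun n => cls m a n * muc n) b) : UB muc b := by
  have : NeZero m := ⟨hm.ne'⟩
  rw [mu_cop hm hb]
  have h1 := UB_sum (Finset.univ : Finset (ZMod m)ˣ)
    (fun a n => cls m (a : ZMod m) n * muc n) (b := b)
    (fun a' _ => class_class hm ha a'.isUnit hb h)
  exact UB_congr h1 fun n => cop_eq muc n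

theorem UB_unit_li {m : ℕ} (hm : 0 < m) {a : ZMod m} (ha : IsUnit a) {b : ℝ} (hb : 0 < b)
    (h : UB (fun n => cls m a n * lic n) b) : UB lic b := by
  have : NeZero m := ⟨hm.ne'⟩
  rw [li_cop hm hb]
  have h1 := UB_sum (Finset.univ : Finset (ZMod m)ˣ)
    (fun a n => cls m (a : ZMod m) n * lic n) (b := b) (fun a' _ => by
      obtain ⟨v, rfl⟩ := ha
      have hu : IsUnit ((v * a'⁻¹ : (ZMod m)ˣ) : ZMod m) := Units.isUnit _
      obtain ⟨q, -, hqp, hq⟩ := Nat.forall_exists_prime_gt_and_eq_mod hu 0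
      have h2 := UB_smul (-1) (UB_dil hqp.pos h)
      refine UB_congr h2 fun n => ?_
      have h3 : ((v : (ZMod m)ˣ) : ZMod m) = ((v * a'⁻¹ : (ZMod m)ˣ) : ZMod m) * (a' : ZMod m) := by
        rw [← Units.val_mul, inv_mul_cancel_right]
      rw [h3, cls_mul hu hq, lic_mul]
      have h4 : lic q = -1 := by
        unfold lic
        rw [ArithmeticFunction.liouville_apply hqp.ne_zero,
          ArithmeticFunction.cardFactors_apply_prime hqp]
        norm_num
      rw [h4]
      ring)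
  exact UB_congr h1 fun n => cop_eq lic n

/-! ### general weights -/

/-- a weight modulo `m` which is nonzero at a class containing squarefree numbers -/
def SqfWeight (m : ℕ) (w : ZMod m → ℂ) : Prop :=
  ∃ n : ℕ, Squarefree n ∧ w (n : ZMod m) ≠ 0

theorem UB_point {m : ℕ} (hm : 0 < m) {w : ZMod m → ℂ} {a : ZMod m} (ha : w a ≠ 0) {c : ℕ → ℂ}
    {b : ℝ} (h : UB (fun n => w (n : ZMod m) * c n) b) : UB (fun n => cls m a n * c n) b := by
  refine UB_congr (UB_smul (w a)⁻¹ (UB_cls hm a h)) fun n => ?_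
  unfold cls
  by_cases h1 : (n : ZMod m) = a
  · rw [if_pos h1, h1]
    field_simp
  · rw [if_neg h1]
    ring

theorem cls_dil {m : ℕ} {a u : ZMod m} {g : ℕ} (hgu : a = u * g) (n : ℕ) (f : ℕ → ℂ) :
    cls m u n * (cls m a (g * n) * f (g * n)) = cls m u n * f (g * n) := by
  unfold cls
  by_cases h : (n : ZMod m) = u
  · rw [if_pos h, if_pos, one_mul]
    push_cast
    rw [h, hgu, mul_comm]
  · rw [if_neg h, zero_mul, zero_mul]

theorem UB_weight {m : ℕ} (hm : 0 < m) {w : ZMod m → ℂ} (hw : SqfWeight m w) {b : ℝ}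
    (hb : 0 < b) : UB (fun n => w (n : ZMod m) * muc n) b ↔ UB muc b := by
  have : NeZero m := ⟨hm.ne'⟩
  constructor
  · intro h
    obtain ⟨n₀, hn₀, hw0⟩ := hw
    have h1 := UB_point hm hw0 h
    obtain ⟨g, hg, u, hu, hgu⟩ := ZMod.eq_unit_mul_divisor (n₀ : ZMod m)
    have hg0 : 0 < g := Nat.pos_of_dvd_of_pos hg hm
    have hgn : g ∣ n₀ := by
      have h2 := congrArg (ZMod.castHom hg (ZMod g)) hgu
      rw [map_natCast, map_mul, map_natCast, ZMod.natCast_self, mul_zero] at h2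
      exact (ZMod.natCast_eq_zero_iff n₀ g).1 h2
    have hgs : Squarefree g := hn₀.squarefree_of_dvd hgn
    have hmg : muc g ≠ 0 := by
      unfold muc
      rw [Int.cast_ne_zero, ArithmeticFunction.moebius_ne_zero_iff_squarefree]
      exact hgs
    apply UB_unit hm hu hb
    refine UB_congr (UB_smul (muc g)⁻¹ (UB_cls hm u (UB_dil hg0 h1))) fun n => ?_
    rw [cls_dil hgu n muc]
    unfold cls
    by_cases h2 : (n : ZMod m) = u
    · rw [if_pos h2, one_mul, one_mul]
      have h3 : n.Coprime m := by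
        rw [← ZMod.isUnit_iff_coprime, h2]
        exact hu
      rw [muc_coprime (Nat.Coprime.coprime_dvd_right hg h3).symm]
      field_simp
    · rw [if_neg h2, zero_mul, zero_mul, mul_zero]
  · intro h
    exact S_weight w muc h

theorem UB_weight_li {m : ℕ} (hm : 0 < m) {w : ZMod m → ℂ} (hw : w ≠ 0) {b : ℝ}
    (hb : 0 < b) : UB (fun n => w (n : ZMod m) * lic n) b ↔ UB lic b := by
  have : NeZero m := ⟨hm.ne'⟩
  constructor
  · intro h
    obtain ⟨a, hw0⟩ := Function.ne_iff.1 hw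
    have h1 := UB_point hm hw0 h
    obtain ⟨g, hg, u, hu, hgu⟩ := ZMod.eq_unit_mul_divisor a
    have hg0 : 0 < g := Nat.pos_of_dvd_of_pos hg hm
    have hmg : lic g ≠ 0 := by
      unfold lic
      rw [ArithmeticFunction.liouville_apply hg0.ne']
      simp
    apply UB_unit_li hm hu hb
    refine UB_congr (UB_smul (lic g)⁻¹ (UB_cls hm u (UB_dil hg0 h1))) fun n => ?_
    rw [cls_dil hgu n lic, lic_mul]
    field_simp
  · intro h
    exact S_weight w lic h

/-! ### rotation -/

theorem S_rot {m : ℕ} (hm : 0 < m) (a : ℕ) (c : ℕ → ℂ) (R : ℕ) (x : ℝ) :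
    S (fun n => cls m (a : ZMod m) n * c n) R (x + 1 / m) =
      Complex.exp (2 * Real.pi * Complex.I * (a / m)) * S (fun n => cls m (a : ZMod m) n * c n) R x := by
  have hm0 : (m : ℂ) ≠ 0 := by exact_mod_cast hm.ne'
  unfold S
  rw [Finset.mul_sum]
  refine Finset.sum_congr rfl fun n _ => ?_
  unfold cls
  beta_reduce
  by_cases h : (n : ZMod m) = (a : ZMod m)
  · rw [if_pos h]
    have h1 := (ZMod.intCast_eq_intCast_iff_dvd_sub (a : ℤ) (n : ℤ) m).1 (by exact_mod_cast h.symm)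
    obtain ⟨t, ht⟩ := h1
    have h2 : (n : ℂ) = a + m * t := by
      have : (n : ℤ) = a + m * t := by linarith
      exact_mod_cast this
    have h3 : Complex.exp (2 * Real.pi * Complex.I * n * ((x + 1 / m : ℝ) : ℂ)) =
        Complex.exp (2 * Real.pi * Complex.I * (a / m)) *
          Complex.exp (2 * Real.pi * Complex.I * n * x) := by
      rw [← Complex.exp_add]
      have h4 : 2 * Real.pi * Complex.I * n * ((x + 1 / m : ℝ) : ℂ) =
          2 * Real.pi * Complex.I * (a / m) + 2 * Real.pi * Complex.I * n * x +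
            t * (2 * Real.pi * Complex.I) := by
        push_cast
        rw [mul_add]
        have : 2 * Real.pi * Complex.I * n * (1 / m : ℂ) = 2 * Real.pi * Complex.I * (a / m) +
            t * (2 * Real.pi * Complex.I) := by
          conv_lhs => rw [h2]
          field_simp
        rw [this]
        ring
      rw [h4, Complex.exp_add, Complex.exp_int_mul_two_pi_mul_I, mul_one]
    rw [h3]
    ring
  · rw [if_neg h]
    ring

/-- the order of `a` modulo `m` is at least three -/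
def Ord3 (m a : ℕ) : Prop := ¬ m ∣ 2 * a

/-- one-sided power bounds -/
def OB (z : ℂ) (c : ℕ → ℂ) (b : ℝ) : Prop :=
  ∃ C : ℝ, ∀ (R : ℕ) (x : ℝ), (z * S c R x).re ≤ C * (R : ℝ) ^ b

theorem rot_iter {m : ℕ} (hm : 0 < m) (a : ℕ) (c : ℕ → ℂ) (R : ℕ) (x : ℝ) (j : ℕ) :
    S (fun n => cls m (a : ZMod m) n * c n) R (x + j / m) =
      Complex.exp (2 * Real.pi * Complex.I * (a / m)) ^ j *
        S (fun n => cls m (a : ZMod m) n * c n) R x := by
  induction j with
  | zero => simp
  | succ j ih =>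
    have h : x + ((j + 1 : ℕ) : ℝ) / m = (x + j / m) + 1 / m := by push_cast; ring
    rw [h, S_rot hm, ih, pow_succ]
    ring

/-- in a class of order at least three one-sided bounds are two-sided bounds -/
theorem UB_of_OB {m : ℕ} (hm : 0 < m) {a : ℕ} (ha : Ord3 m a) {z : ℂ} (hz : z ≠ 0) {c : ℕ → ℂ}
    {b : ℝ} (h : OB z (fun n => cls m (a : ZMod m) n * c n) b) :
    UB (fun n => cls m (a : ZMod m) n * c n) b := by
  have hm0 : (m : ℂ) ≠ 0 := by exact_mod_cast hm.ne'
  set ζ : ℂ := Complex.exp (2 * Real.pi * Complex.I * (a / m)) with hζ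
  have hζm : ζ ^ m = 1 := by
    rw [hζ, ← Complex.exp_nat_mul]
    have : (m : ℂ) * (2 * Real.pi * Complex.I * (a / m)) = (a : ℕ) * (2 * Real.pi * Complex.I) := by
      field_simp
    rw [this, Complex.exp_nat_mul_two_pi_mul_I]
  have hζn : ‖ζ‖ = 1 := by
    have h1 : ‖ζ‖ ^ m = 1 := by rw [← norm_pow, hζm, norm_one]
    exact (pow_eq_one_iff_of_nonneg (norm_nonneg _) hm.ne').1 h1
  have hζ2 : ζ ^ 2 ≠ 1 := by
    intro h1
    apply ha
    rw [hζ, ← Complex.exp_nat_mul, Complex.exp_eq_one_iff] at h1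
    obtain ⟨t, ht⟩ := h1
    have h2 : ((2 * a : ℤ) : ℂ) = ((m * t : ℤ) : ℂ) := by
      have h3 : (2 * Real.pi * Complex.I : ℂ) ≠ 0 := Complex.two_pi_I_ne_zero
      have h4 : ((2 : ℕ) : ℂ) * (2 * Real.pi * Complex.I * (a / m)) =
          (2 * a / m) * (2 * Real.pi * Complex.I) := by push_cast; ring
      rw [h4] at ht
      have h5 := mul_right_cancel₀ h3 ht
      rw [div_eq_iff hm0] at h5
      push_cast
      rw [h5]
      ring
    have h3 : (2 * a : ℤ) = m * t := by exact_mod_cast h2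
    have h4 : (m : ℤ) ∣ ((2 * a : ℕ) : ℤ) := ⟨t, by push_cast; exact h3⟩
    exact_mod_cast h4
  have hζ1 : ζ ≠ 1 := by
    intro h1
    apply hζ2
    rw [h1, one_pow]
  have him : ζ.im ≠ 0 := by
    intro h1
    apply hζ2
    have h2 : ζ = (ζ.re : ℂ) := Complex.ext rfl (by simp [h1])
    have h3 : ζ.re ^ 2 = 1 := by
      have h4 : ‖ζ‖ ^ 2 = 1 := by rw [hζn, one_pow]
      rw [← Complex.normSq_eq_norm_sq, Complex.normSq_apply, h1] at h4
      linarith
    rw [h2]
    exact_mod_cast h3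
  have hsum : ∑ j ∈ range m, ζ ^ j = 0 := by
    have h1 := mul_geom_sum ζ m
    rw [hζm, sub_self] at h1
    exact (mul_eq_zero.1 h1).resolve_left (sub_ne_zero.2 hζ1)
  obtain ⟨C, hC⟩ := h
  set C' := |C| with hC'
  have hup : ∀ (R : ℕ) (x : ℝ), (z * S (fun n => cls m (a : ZMod m) n * c n) R x).re ≤
      C' * (R : ℝ) ^ b := fun R x => (hC R x).trans
        (mul_le_mul_of_nonneg_right (le_abs_self C) (by positivity))
  have hlow : ∀ (R : ℕ) (x : ℝ), -(m * (C' * (R : ℝ) ^ b)) ≤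
      (z * S (fun n => cls m (a : ZMod m) n * c n) R x).re := by
    intro R x
    set T := S (fun n => cls m (a : ZMod m) n * c n) R x with hT
    have h1 : ∑ j ∈ range m, (z * (ζ ^ j * T)).re = 0 := by
      rw [← Complex.re_sum]
      have h2 : ∑ j ∈ range m, z * (ζ ^ j * T) = z * ((∑ j ∈ range m, ζ ^ j) * T) := by
        rw [Finset.sum_mul, Finset.mul_sum]
      rw [h2, hsum, zero_mul, mul_zero, Complex.zero_re]
    have h2 : ∀ j, (z * (ζ ^ j * T)).re ≤ C' * (R : ℝ) ^ b := by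
      intro j
      have h3 := hup R (x + j / m)
      rwa [rot_iter hm] at h3
    rw [← Finset.add_sum_erase _ _ (Finset.mem_range.2 hm), pow_zero, one_mul] at h1
    have h4 : ∑ j ∈ (range m).erase 0, (z * (ζ ^ j * T)).re ≤
        ∑ j ∈ (range m).erase 0, C' * (R : ℝ) ^ b := Finset.sum_le_sum fun j _ => h2 j
    rw [Finset.sum_const, Finset.card_erase_of_mem (Finset.mem_range.2 hm), Finset.card_range,
      nsmul_eq_mul] at h4
    have h5 : ((m - 1 : ℕ) : ℝ) ≤ m := by exact_mod_cast Nat.sub_le m 1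
    have h6 : ((m - 1 : ℕ) : ℝ) * (C' * (R : ℝ) ^ b) ≤ m * (C' * (R : ℝ) ^ b) :=
      mul_le_mul_of_nonneg_right h5 (by positivity)
    linarith
  have habs : ∀ (R : ℕ) (x : ℝ), |(z * S (fun n => cls m (a : ZMod m) n * c n) R x).re| ≤
      m * (C' * (R : ℝ) ^ b) := by
    intro R x
    rw [abs_le]
    refine ⟨hlow R x, (hup R x).trans ?_⟩
    have h5 : (1 : ℝ) ≤ m := by exact_mod_cast hm
    have h6 : 0 ≤ C' * (R : ℝ) ^ b := by positivity
    nlinarith
  -- the imaginary part
  have hI : ∀ (R : ℕ) (x : ℝ), |(z * S (fun n => cls m (a : ZMod m) n * c n) R x).im| ≤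
      |ζ.im|⁻¹ * (2 * (m * (C' * (R : ℝ) ^ b))) := by
    intro R x
    have h1 := habs R x
    have h2 := habs R (x + 1 / m)
    rw [S_rot hm] at h2
    set T := S (fun n => cls m (a : ZMod m) n * c n) R x with hT
    have h3 : (z * (Complex.exp (2 * Real.pi * Complex.I * (a / m)) * T)).re =
        ζ.re * (z * T).re - ζ.im * (z * T).im := by
      rw [← hζ, ← mul_assoc, mul_comm z ζ, mul_assoc, Complex.mul_re]
    rw [h3] at h2
    have h4 : |ζ.re| ≤ 1 := by
      have := Complex.abs_re_le_norm ζ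
      rwa [hζn] at this
    have h5 : |ζ.im * (z * T).im| ≤ 2 * (m * (C' * (R : ℝ) ^ b)) := by
      have h6 : ζ.im * (z * T).im = ζ.re * (z * T).re - (ζ.re * (z * T).re - ζ.im * (z * T).im) := by
        ring
      rw [h6]
      refine (abs_sub _ _).trans ?_
      rw [abs_mul]
      have h7 : |ζ.re| * |(z * T).re| ≤ 1 * |(z * T).re| :=
        mul_le_mul_of_nonneg_right h4 (abs_nonneg _)
      linarith
    rw [abs_mul] at h5
    have h6 : 0 < |ζ.im| := abs_pos.2 him
    rw [inv_mul_eq_div, le_div_iff₀ h6]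
    linarith
  refine ⟨‖z‖⁻¹ * (m * C' + |ζ.im|⁻¹ * (2 * (m * C'))), fun R x => ?_⟩
  have hz0 : 0 < ‖z‖ := norm_pos_iff.2 hz
  have h1 : ‖z * S (fun n => cls m (a : ZMod m) n * c n) R x‖ ≤
      m * (C' * (R : ℝ) ^ b) + |ζ.im|⁻¹ * (2 * (m * (C' * (R : ℝ) ^ b))) :=
    (Complex.norm_le_abs_re_add_abs_im _).trans (add_le_add (habs R x) (hI R x))
  rw [norm_mul] at h1
  rw [mul_assoc, inv_mul_eq_div, le_div_iff₀ hz0]
  calc _ = ‖z‖ * ‖S (fun n => cls m (a : ZMod m) n * c n) R x‖ := mul_comm _ _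
    _ ≤ _ := h1
    _ = _ := by ring

end Pool.Agent.T9h59.RC
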