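import Pool.Agent.T9h59.RC.Arc2

set_option autoImplicit false

/-! The final form of the results on residue classes. -/

namespace Pool.Agent.T9h59.RC

open Finset Polynomial Filter Topology
open Pool.Agent.Y853.EM (S S_zero S_add_nat muc lic muc_norm)
open Pool.Agent.N375.LM

/-- the indicator function of one class, on the residue classes -/
noncomputable def ind (m : ℕ) (a : ZMod m) (u : ZMod m) : ℂ := by
  classical exact if u = a then 1 else 0

theorem ind_cls (m : ℕ) (a : ZMod m) (n : ℕ) : ind m a (n : ZMod m) = cls m a n := by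
  unfold ind cls
  split_ifs <;> rfl

theorem ind_support (m : ℕ) (a : ZMod m) : {u : ZMod m | ind m a u ≠ 0} = {a} := by
  ext u
  simp [ind]

/-- the class `a` modulo `m` contains a squarefree number if `gcd (a, m)` is squarefree -/
theorem sqf_class {m : ℕ} (hm : 0 < m) {a : ℕ} (h : Squarefree (Nat.gcd a m)) :
    SqfWeight m (ind m (a : ZMod m)) := by
  set g := Nat.gcd a m with hg
  have hg0 : 0 < g := Nat.gcd_pos_of_pos_right a hm
  obtain ⟨a', ha'⟩ := Nat.gcd_dvd_left a m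
  obtain ⟨m', hm'⟩ := Nat.gcd_dvd_right a m
  rw [← hg] at ha' hm'
  have hm'0 : 0 < m' := by
    rcases Nat.eq_zero_or_pos m' with h0 | h0
    · rw [h0, mul_zero] at hm'
      omega
    · exact h0
  have hcop : Nat.Coprime a' m' := by
    have h1 : Nat.gcd a m = g * Nat.gcd a' m' := by
      conv_lhs => rw [ha', hm']
      rw [Nat.gcd_mul_left]
    rw [← hg] at h1
    have h2 : g * 1 = g * Nat.gcd a' m' := by rw [mul_one]; exact h1
    exact (Nat.eq_of_mul_eq_mul_left hg0 h2).symm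
  have : NeZero m' := ⟨hm'0.ne'⟩
  have hu : IsUnit (a' : ZMod m') := (ZMod.isUnit_iff_coprime a' m').2 hcop
  obtain ⟨p, hpg, hp, hpa⟩ := Nat.forall_exists_prime_gt_and_eq_mod hu g
  refine ⟨g * p, ?_, ?_⟩
  · rw [Nat.squarefree_mul_iff]
    refine ⟨?_, h, hp.squarefree⟩
    rw [Nat.coprime_comm, Nat.Prime.coprime_iff_not_dvd hp]
    intro hd
    exact absurd (Nat.le_of_dvd hg0 hd) (by omega)
  · have h1 : ((g * p : ℕ) : ZMod m) = (a : ZMod m) := by
      rw [ZMod.natCast_eq_natCast_iff]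
      rw [ZMod.natCast_eq_natCast_iff] at hpa
      rw [ha']
      conv => rw [hm']
      exact Nat.ModEq.mul_left' g hpa
    rw [h1]
    simp [ind]

theorem bound_arc {m : ℕ} (hm : 0 < m) (w : ZMod m → ℂ) (f : ℕ → ℂ) (b : ℝ) {α β : ℝ}
    (hαβ : (({a : ZMod m | w a ≠ 0} : Set (ZMod m)).ncard : ℝ) ≤ m * (β - α)) :
    AB (fun n => w (n : ZMod m) * f n) α β b ↔ UB (fun n => w (n : ZMod m) * f n) b := by
  classical
  have : NeZero m := ⟨hm.ne'⟩
  apply AB_iff'
  refine le_trans (le_of_eq ?_) hαβ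
  congr 1
  rw [← Set.ncard_coe_finset]
  congr 1
  ext a
  simp

theorem omega_w {m : ℕ} (hm : 0 < m) {w : ZMod m → ℂ} (hw : SqfWeight m w) {α β : ℝ}
    (hαβ : (({a : ZMod m | w a ≠ 0} : Set (ZMod m)).ncard : ℝ) ≤ m * (β - α)) (C : ℝ) :
    ∃ᶠ R : ℕ in atTop, ∃ x ∈ Set.Icc α β,
      C * Real.sqrt R < ‖S (fun n => w (n : ZMod m) * muc n) R x‖ := by
  obtain ⟨A, hA⟩ := wt_bdd hm w
  refine freq_of_not hA ?_ C
  rw [bound_arc hm w muc _ hαβ, UB_weight hm hw (by norm_num)]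
  exact not_UB

theorem omega_class {m : ℕ} (hm : 0 < m) {a : ℕ} (h : Squarefree (Nat.gcd a m)) {α β : ℝ}
    (hαβ : 1 ≤ m * (β - α)) (C : ℝ) : ∃ᶠ R : ℕ in atTop, ∃ x ∈ Set.Icc α β,
      C * Real.sqrt R < ‖S (fun n => ind m (a : ZMod m) (n : ZMod m) * muc n) R x‖ := by
  apply omega_w hm (sqf_class hm h)
  rw [ind_support, Set.ncard_singleton, Nat.cast_one]
  exact hαβ

/-- generic points, one residue class -/
theorem generic_class (a : ℕ → ℕ) (ha : ∀ m : ℕ, 0 < m → Squarefree (Nat.gcd (a m) m))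
    (Φ : ℕ → ℝ) : ∀ᶠ x in residual ℝ, ∃ᶠ m : ℕ in atTop, ∃ R : ℕ,
      Φ m * Real.sqrt R < ‖S (fun n => ind m (a m : ZMod m) (n : ZMod m) * muc n) R x‖ := by
  have key : ∀ N : ℕ, ∀ᶠ x in residual ℝ, ∃ m : ℕ, N ≤ m ∧ ∃ R : ℕ,
      Φ m * Real.sqrt R < ‖S (fun n => ind m (a m : ZMod m) (n : ZMod m) * muc n) R x‖ := by
    intro N
    have hset : {x : ℝ | ∃ m : ℕ, N ≤ m ∧ ∃ R : ℕ,
        Φ m * Real.sqrt R < ‖S (fun n => ind m (a m : ZMod m) (n : ZMod m) * muc n) R x‖} ∈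
          residual ℝ := by
      refine residual_of_dense_open ?_ ?_
      · have he : {x : ℝ | ∃ m : ℕ, N ≤ m ∧ ∃ R : ℕ,
            Φ m * Real.sqrt R < ‖S (fun n => ind m (a m : ZMod m) (n : ZMod m) * muc n) R x‖} =
            ⋃ m : ℕ, ⋃ _ : N ≤ m, ⋃ R : ℕ, {x : ℝ | Φ m * Real.sqrt R <
              ‖S (fun n => ind m (a m : ZMod m) (n : ZMod m) * muc n) R x‖} := by
          ext x
          simp only [Set.mem_ofPred_eq, Set.mem_iUnion, exists_prop]
        rw [he]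
        refine isOpen_iUnion fun m => isOpen_iUnion fun _ => isOpen_iUnion fun R => ?_
        exact isOpen_lt continuous_const (S_cont _ R).norm
      · rw [dense_iff_inter_open]
        intro V hV hVne
        obtain ⟨z, hz⟩ := hVne
        obtain ⟨δ, hδ, hball⟩ := Metric.isOpen_iff.1 hV z hz
        obtain ⟨k, hk⟩ := exists_nat_gt (2 / δ)
        have hm1 : (0 : ℝ) < ((N + k + 1 : ℕ) : ℝ) := by positivity
        have hmd : 1 ≤ ((N + k + 1 : ℕ) : ℝ) * (z + δ / 2 - z) := by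
          have h1 : 2 / δ ≤ ((N + k + 1 : ℕ) : ℝ) := by
            push_cast
            have : (0 : ℝ) ≤ N := Nat.cast_nonneg N
            linarith
          rw [div_le_iff₀ hδ] at h1
          have h2 : z + δ / 2 - z = δ / 2 := by ring
          rw [h2]
          linarith
        obtain ⟨R, x, hx, hR⟩ := (omega_class (m := N + k + 1) (Nat.succ_pos _)
          (ha _ (Nat.succ_pos _)) hmd (Φ (N + k + 1))).exists
        refine ⟨x, ?_, ?_⟩
        · apply hball
          rw [Metric.mem_ball, Real.dist_eq, abs_lt]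
          constructor <;> linarith [hx.1, hx.2]
        · exact ⟨N + k + 1, by omega, R, hR⟩
    exact hset
  filter_upwards [eventually_countable_forall.2 key] with x hx
  rw [frequently_atTop]
  intro N
  obtain ⟨m, h1, h2⟩ := hx N
  exact ⟨m, h1, h2⟩

theorem OB_of_UB {z : ℂ} {c : ℕ → ℂ} {b : ℝ} (h : UB c b) : OB z c b := by
  obtain ⟨C, hC⟩ := h
  refine ⟨‖z‖ * C, fun R x => (Complex.re_le_norm _).trans ?_⟩
  rw [norm_mul, mul_assoc]
  exact mul_le_mul_of_nonneg_left (hC R x) (norm_nonneg z)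

theorem fun_ind (m : ℕ) (a : ZMod m) (f : ℕ → ℂ) :
    (fun n : ℕ => ind m a (n : ZMod m) * f n) = fun n => cls m a n * f n := by
  funext n
  rw [ind_cls]

theorem OB_iff {m : ℕ} (hm : 0 < m) {a : ℕ} (ha : Ord3 m a) {z : ℂ} (hz : z ≠ 0) (c : ℕ → ℂ)
    (b : ℝ) : OB z (fun n => ind m (a : ZMod m) (n : ZMod m) * c n) b ↔
      UB (fun n => ind m (a : ZMod m) (n : ZMod m) * c n) b := by
  rw [fun_ind]
  exact ⟨UB_of_OB hm ha hz, OB_of_UB⟩

theorem omega_re {m : ℕ} (hm : 0 < m) {a : ℕ} (h : Squarefree (Nat.gcd a m)) (ha : Ord3 m a)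
    {z : ℂ} (hz : z ≠ 0) (C : ℝ) : ∃ᶠ R : ℕ in atTop, ∃ x : ℝ,
      C * Real.sqrt R < (z * S (fun n => ind m (a : ZMod m) (n : ZMod m) * muc n) R x).re := by
  obtain ⟨A, hA⟩ := wt_bdd hm (ind m (a : ZMod m))
  refine freq_re hA ?_ C
  rw [OB_iff hm ha hz, UB_weight hm (sqf_class hm h) (by norm_num)]
  exact not_UB

end Pool.Agent.T9h59.RC
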